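import Mathlib
import Pool.Agent.H16.Grig2

set_option autoImplicit false
open Pointwise

namespace Pool.Agent.Results.MP_b4aa87_al.Yes

/-- The number of `Aut(G)`-orbits meeting the ball of radius `n` for the generating set `S`. -/
noncomputable def autGrowth {G : Type} [Group G] (S : Finset G) (n : ℕ) : ℕ :=
  ((fun g : G => MulAction.orbit (MulAut G) g) ''
    (((S : Set G) ∪ (S : Set G)⁻¹ ∪ {1}) ^ n)).ncard

/-- The domination preorder on growth functions. -/
def Dom (f g : ℕ → ℕ) : Prop := ∃ c : ℕ, 1 ≤ c ∧ ∀ n, f n ≤ c * g (c * n + c) + c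

open Pool.Agent.H16.Grig

theorem result : ∃ (G : Type) (_ : Group G) (S : Finset G),
    Subgroup.closure (S : Set G) = ⊤ ∧
    (∀ d : ℕ, ¬ Dom (autGrowth S) (fun n => n ^ d)) ∧
    ¬ Dom (fun n => 2 ^ n) (autGrowth S) := by
  let G := Subgroup.closure S0
  have hf : ((↑) ⁻¹' S0 : Set G).Finite := S0_fin.preimage Subtype.val_injective.injOn
  have hc : Subgroup.closure (hf.toFinset : Set G) = ⊤ := by
    rw [Set.Finite.coe_toFinset, Subgroup.closure_closure_coe_preimage]
  have him : ∀ n : ℕ, G.subtype '' (((hf.toFinset : Set G) ∪ (hf.toFinset : Set G)⁻¹ ∪ {1}) ^ n) =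
      T ^ n := by
    intro n
    rw [Set.image_pow, Set.Finite.coe_toFinset]
    congr 1
    ext s
    constructor
    · rintro ⟨t, (e | e) | rfl, rfl⟩
      · exact Or.inl e
      · have := S0_inv _ e
        rw [Subgroup.coe_inv, inv_inv] at this
        refine Or.inl ?_
        show t.1 ∈ S0
        rw [this]; exact e
      · exact Or.inr rfl
    · rintro (e | rfl)
      · exact ⟨⟨s, Subgroup.subset_closure e⟩, Or.inl (Or.inl e), rfl⟩
      · exact ⟨1, Or.inr rfl, rfl⟩
  have hfin : ∀ n : ℕ, (((hf.toFinset : Set G) ∪ (hf.toFinset : Set G)⁻¹ ∪ {1}) ^ n).Finite :=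
    fun n => Set.Finite.of_finite_image (him n ▸ T_fin n) G.subtype_injective.injOn
  refine ⟨G, inferInstance, hf.toFinset, hc, fun d ⟨c, _, h⟩ => ?_, fun ⟨c, hc1, h⟩ => ?_⟩
  · obtain ⟨y, hy⟩ := superpoly c d
    obtain ⟨f, h1, h2⟩ := orders y
    have h3 := (h _).trans_lt hy
    have h4 : ∀ A : Finset ℕ, ∃ g : G, A ∈ (Pr y).powerset → g ∈ ((hf.toFinset : Set G) ∪
        (hf.toFinset : Set G)⁻¹ ∪ {1}) ^ ((y ^ 2 + y + 1) * (6 * (y ^ 2 + y) ^ 2)) ∧ g.1 = f A := by
      intro A
      by_cases hA : A ∈ (Pr y).powerset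
      · have := h1 A hA
        rw [← him] at this
        obtain ⟨g, a, b⟩ := this
        exact ⟨g, fun _ => ⟨a, b⟩⟩
      · exact ⟨1, fun e => absurd e hA⟩
    choose g hg using h4
    have h5 := Set.ncard_le_ncard_of_injOn (s := ((Pr y).powerset : Finset (Finset ℕ)))
      (fun A => MulAction.orbit (MulAut G) (g A))
      (fun A hA => Set.mem_image_of_mem (fun g : G => MulAction.orbit (MulAut G) g) (hg A hA).1)
      (fun A hA B hB e => h2 hA hB (by
        obtain ⟨φ, hφ⟩ := MulAction.orbit_eq_iff.1 e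
        show orderOf (f A) = orderOf (f B)
        rw [← (hg A hA).2, ← (hg B hB).2, Subgroup.orderOf_coe, Subgroup.orderOf_coe, ← hφ]
        exact MulEquiv.orderOf_eq φ _)) ((hfin _).image _)
    rw [Set.ncard_coe_finset, Finset.card_powerset] at h5
    exact absurd h5 (not_le.2 h3)
  · have hc0 : (0 : ℝ) < c := by exact_mod_cast hc1
    obtain ⟨C, hC, h1⟩ := upper (1 / (2 * c)) (by positivity)
    have h2 : ∀ m, (autGrowth hf.toFinset m : ℝ) ≤ C * Real.exp (1 / (2 * c) * m) := fun m => by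
      refine le_trans ?_ (h1 m).2
      rw [← him, Set.ncard_image_of_injective _ G.subtype_injective]
      exact_mod_cast Set.ncard_image_le (hfin m)
    have e2 : Real.exp (1 / 2) < 2 := by
      have := Real.exp_one_lt_d9
      have h3 : Real.exp (1 / 2) ^ 2 = Real.exp 1 := by rw [← Real.exp_nat_mul]; norm_num
      have := Real.exp_pos (1 / 2)
      nlinarith
    have e0 := Real.exp_pos (1 / 2)
    obtain ⟨n, hn⟩ := pow_unbounded_of_one_lt (c * (C * 2) + c)
      (show 1 < 2 / Real.exp (1 / 2) by rwa [one_lt_div e0])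
    have h3 := (Nat.cast_le (α := ℝ)).2 (h n)
    have h4 := h2 (c * n + c)
    push_cast at h3 h4
    have h5 : Real.exp (1 / (2 * c) * (c * n + c)) = Real.exp (1 / 2) ^ n * Real.exp (1 / 2) := by
      rw [← pow_succ, ← Real.exp_nat_mul]; congr 1; push_cast; field_simp
    rw [h5] at h4
    rw [div_pow, lt_div_iff₀ (by positivity)] at hn
    have h6 : 1 ≤ Real.exp (1 / 2) ^ n := one_le_pow₀ (Real.one_le_exp (by norm_num))
    have h7 : C * (Real.exp (1 / 2) ^ n * Real.exp (1 / 2)) ≤ C * (Real.exp (1 / 2) ^ n * 2) := by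
      gcongr
    have h8 := mul_le_mul_of_nonneg_left (h4.trans h7) hc0.le
    nlinarith

end Pool.Agent.Results.MP_b4aa87_al.Yes
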